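import Pool.Agent.Lib.MP_e6f638_al.T.T10_16

/-!
# The Tits alternative for even Artin groups, and for Artin groups with odd labels

`ArtinGroup M` is the Artin group of the Coxeter matrix `M` (the value `0` of `M` off the diagonal
stands for infinity), defined in `Pool.Agent.Lib.MP_e6f638_al.Fin` by generators and relations.
-/

set_option autoImplicit false

namespace Pool.Agent.Results.MP_e6f638_al.AllEven

open EvenArtin

/-- `s` and `t` are joined by a path of odd labels in `X`. -/
def OddJoined {S : Type} (M : CoxeterMatrix S) (X : Set S) : S → S → Prop :=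
  Relation.ReflTransGen fun a b => a ∈ X ∧ b ∈ X ∧ Odd (M a b)

/-- `X` is a tight clique: all labels in `X` are finite, and any two generators of `X` which are not
joined by a path of odd labels in `X` are joined by such paths to generators with label `2` or
`4`. -/
def TightClique {S : Type} (M : CoxeterMatrix S) (X : Set S) : Prop :=
  (∀ s ∈ X, ∀ t ∈ X, M s t ≠ 0) ∧
  ∀ s ∈ X, ∀ t ∈ X, ¬ OddJoined M X s t → ∃ s' ∈ X, ∃ t' ∈ X, OddJoined M X s s' ∧
    OddJoined M X t t' ∧ (M s' t' = 2 ∨ M s' t' = 4)

/-- `X` is irreducible: it is not the union of two nonempty sets such that all labels between them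
are `2`. -/
def Irreducible {S : Type} (M : CoxeterMatrix S) (X : Set S) : Prop :=
  ∀ O ⊆ X, O.Nonempty → (X \ O).Nonempty → ∃ s ∈ O, ∃ t ∈ X \ O, M s t ≠ 2

/-- `X` is an odd clique: an irreducible tight clique in which every generator has an odd label with
another one. -/
def OddClique {S : Type} (M : CoxeterMatrix S) (X : Set S) : Prop :=
  TightClique M X ∧ Irreducible M X ∧ ∀ s ∈ X, ∃ t ∈ X, t ≠ s ∧ Odd (M s t)

/-- If `M a b` is odd and `M a t`, `M b t` are even then both are `2`, or both are `4`, or neither
is `2` or `4`, for all `a`, `b`, `t` in `X`. -/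
def TwinOn {S : Type} (M : CoxeterMatrix S) (X : Set S) : Prop :=
  ∀ a ∈ X, ∀ b ∈ X, ∀ t ∈ X, Odd (M a b) → Even (M a t) → Even (M b t) →
    (M a t = 2 ↔ M b t = 2) ∧ (M a t = 4 ↔ M b t = 4)

/-- Every subgroup (finitely generated or not) contains a free group of rank two or is solvable of
derived length at most `d`. -/
def SolvableTits (d : ℕ) (G : Type) [Group G] : Prop :=
  ∀ H : Subgroup G,
    (∃ f : FreeGroup (Fin 2) →* G, Function.Injective f ∧ f.range ≤ H) ∨ derivedSeries H d = ⊥

/-- Let `M` be a Coxeter matrix on a finite set. (1) If all labels off the diagonal are even or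
infinite then for some `d` every subgroup of the Artin group of `M` contains a free group of rank
two or is solvable of derived length at most `d`. (2) More generally, this holds if the irreducible
tight cliques of `M` satisfy `TwinOn` and the odd cliques have at most two elements. -/
theorem result (S : Type) [Finite S] (M : CoxeterMatrix S) :
    ((∀ s t : S, s ≠ t → Even (M s t)) → ∃ d : ℕ, SolvableTits d (ArtinGroup M)) ∧
    ((∀ X : Set S, TightClique M X → Irreducible M X → TwinOn M X) →
      (∀ X : Set S, OddClique M X → X.ncard ≤ 2) →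
      ∃ d : ℕ, SolvableTits d (ArtinGroup M)) := by
  have h0 : Lib.MP_e6f638_al.STA (ArtinGroup M) → ∃ d : ℕ, SolvableTits d (ArtinGroup M) := by
    rintro ⟨d, hd⟩
    exact ⟨d, fun H => or_iff_not_imp_left.2 (hd H)⟩
  exact ⟨fun hM => h0 (Lib.MP_e6f638_al.stV9_all.2 S M hM), fun hT hM => h0
    (Lib.MP_e6f638_al.tw_small S M
      (fun X h4 h5 h6 a b t h7 h8 h9 _ _ => hT X ⟨h4, h5⟩ h6 a a.2 b b.2 t t.2 h7 h8 h9)
      fun X hX => hM X ⟨⟨hX.1, hX.2.1⟩, hX.2.2.1, hX.2.2.2⟩)⟩

end Pool.Agent.Results.MP_e6f638_al.AllEven
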