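import Pool.Agent.Lib.MP_e6f638_al.J.Main

/-!
# Artin groups: reduction of the Tits alternative to tight cliques

`ArtinGroup M` is the Artin group of the Coxeter matrix `M` (the value `0` of `M` off the diagonal
stands for infinity), defined in `Pool.Agent.Lib.MP_e6f638_al.Fin` by generators and relations.
-/

set_option autoImplicit false

namespace Pool.Agent.Results.MP_e6f638_al.TightCliques

open EvenArtin

/-- The Coxeter matrix of a subset. -/
def sub {S : Type} (M : CoxeterMatrix S) (X : Set S) : CoxeterMatrix X where
  M := fun s t => M (s : S) (t : S)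
  isSymm := by
    ext s t
    exact M.symmetric _ _
  diagonal := fun s => M.diagonal _
  off_diagonal := fun s t h => M.off_diagonal _ _ fun h' => h (Subtype.ext h')

/-- `s` and `t` are joined by a path of odd labels in `X`. -/
def OddJoined {S : Type} (M : CoxeterMatrix S) (X : Set S) : S → S → Prop :=
  Relation.ReflTransGen fun a b => a ∈ X ∧ b ∈ X ∧ Odd (M a b)

/-- `X` is a tight clique: all labels in `X` are finite, and any two generators of `X` which are not
joined by a path of odd labels in `X` are joined by such paths to generators with label `2` or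
`4`. -/
def TightClique {S : Type} (M : CoxeterMatrix S) (X : Set S) : Prop :=
  (∀ s ∈ X, ∀ t ∈ X, M s t ≠ 0) ∧
  ∀ s ∈ X, ∀ t ∈ X, ¬ OddJoined M X s t → ∃ s' ∈ X, ∃ t' ∈ X, OddJoined M X s s' ∧
    OddJoined M X t t' ∧ (M s' t' = 2 ∨ M s' t' = 4)

/-- `X` is irreducible: it is not the union of two nonempty sets such that all labels between them
are `2`. -/
def Irreducible {S : Type} (M : CoxeterMatrix S) (X : Set S) : Prop :=
  ∀ O ⊆ X, O.Nonempty → (X \ O).Nonempty → ∃ s ∈ O, ∃ t ∈ X \ O, M s t ≠ 2

/-- The bounded Tits alternative: there are `N`, `d` such that every subgroup (finitely generated or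
not) contains a free group of rank two or has a subgroup of index at most `N` which is solvable of
derived length at most `d`. -/
def BoundedTits (G : Type) [Group G] : Prop :=
  ∃ N d : ℕ, ∀ H : Subgroup G,
    (∃ f : FreeGroup (Fin 2) →* G, Function.Injective f ∧ f.range ≤ H) ∨
      ∃ K : Subgroup H, K.index ≠ 0 ∧ K.index ≤ N ∧ derivedSeries K d = ⊥

/-- The property `P` of groups passes to subgroups, to amalgams of two groups over a common subgroup
and to HNN extensions. -/
structure Closed (P : (G : Type) → [Group G] → Prop) : Prop where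
  subgroups : ∀ (G K : Type) [Group G] [Group K] (f : G →* K), Function.Injective f → P K → P G
  amalgams : ∀ (G : Bool → Type) [∀ c, Group (G c)] (B : Type) [Group B] (φ : ∀ c, B →* G c),
    (∀ c, Function.Injective (φ c)) → (∀ c, P (G c)) → P (Monoid.PushoutI φ)
  hnn : ∀ (G : Type) [Group G] (A B : Subgroup G) (φ : A ≃* B), P G → P (HNNExtension G A B φ)

/-- (1) Every property of groups which passes to subgroups, amalgams and HNN extensions and holds
for the Artin groups of the tight cliques of `M` holds for the Artin group of `M`. (2) If the Artin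
groups of the irreducible tight cliques of `M` have the bounded Tits alternative then the Artin
group of `M` has it. -/
theorem result :
    (∀ P : (G : Type) → [Group G] → Prop, Closed P → ∀ (S : Type) [Finite S]
      (M : CoxeterMatrix S), (∀ X : Set S, TightClique M X → P (ArtinGroup (sub M X))) →
        P (ArtinGroup M)) ∧
    (∀ (S : Type) [Finite S] (M : CoxeterMatrix S),
      (∀ X : Set S, TightClique M X → Irreducible M X → BoundedTits (ArtinGroup (sub M X))) →
        BoundedTits (ArtinGroup M)) := by
  have h1 : ∀ P : (G : Type) → [Group G] → Prop, Closed P → ∀ (S : Type) [Finite S]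
      (M : CoxeterMatrix S), (∀ X : Set S, TightClique M X → P (ArtinGroup (sub M X))) →
        P (ArtinGroup M) := by
    intro P hP S _ M h
    exact Lib.MP_e6f638_al.stJR2_all P ⟨hP.1, hP.2, hP.3⟩ S M fun X hX hX' => h X ⟨hX, hX'⟩
  have h2 : ∀ (G : Type) [Group G], BoundedTits G ↔ Lib.MP_e6f638_al.VTA G := by
    intro G _
    constructor
    · rintro ⟨N, d, h⟩
      exact ⟨N, d, fun H hH => (h H).resolve_left hH⟩
    · rintro ⟨N, d, h⟩
      exact ⟨N, d, fun H => or_iff_not_imp_left.2 (h H)⟩
  refine ⟨h1, ?_⟩
  intro S _ M h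
  rw [h2]
  refine Lib.MP_e6f638_al.stJI Lib.MP_e6f638_al.stVL Lib.MP_e6f638_al.stJH
    Lib.MP_e6f638_al.stJE Lib.MP_e6f638_al.stJJ_all Lib.MP_e6f638_al.stJP_all
    (fun G [Group G] => Lib.MP_e6f638_al.VTA G) Lib.MP_e6f638_al.stJC2
    (fun G K _ _ => Lib.MP_e6f638_al.vta_prod G K) S M fun X hX hX' hI => ?_
  exact (h2 _).1 (h X ⟨hX, hX'⟩ hI)

end Pool.Agent.Results.MP_e6f638_al.TightCliques
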